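import Pool.Agent.Helper54.CG.NKGoals

/-!
# Project CG (MP_c70db9_ag), packet CG-NKA: the abstract Krawczyk lemma
-/

set_option autoImplicit false

open Finset

namespace Pool.Agent.Helper66.CG.NKA

open Pool.Agent.Helper54.CG.NK

/-- the row sums bound the sup norm -/
theorem row_le {N : ℕ} (M : Fin N → ℂ) (x : Fin N → ℂ) :
    ‖∑ k, M k * x k‖ ≤ (∑ k, ‖M k‖) * ‖x‖ := by
  refine (norm_sum_le _ _).trans ?_
  rw [sum_mul]
  refine sum_le_sum fun k _ => ?_
  rw [norm_mul]
  exact mul_le_mul_of_nonneg_left (norm_le_pi_norm x k) (norm_nonneg _)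

theorem t : S_A := by
  intro N P c ρ J A E hρ hE hP h2 h4
  set B : Set (Fin N → ℂ) := Metric.closedBall c ρ with hB
  have hmem : ∀ x : Fin N → ℂ, x ∈ B ↔ ∀ i, ‖x i - c i‖ ≤ ρ := by
    intro x
    rw [hB, Metric.mem_closedBall, dist_pi_le_iff hρ]
    simp only [dist_eq_norm]
  set T : (Fin N → ℂ) → (Fin N → ℂ) := fun x r => x r - ∑ j, A r j * P x j with hT
  have hlip : ∀ x ∈ B, ∀ y ∈ B, ‖T x - T y‖ ≤ 1 / 2 * ‖x - y‖ := by
    intro x hx y hy
    refine (pi_norm_le_iff_of_nonneg (by positivity)).2 fun r => ?_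
    have e1 : (T x - T y) r =
        (∑ k, ((if r = k then (1 : ℂ) else 0) - ∑ j, A r j * J j k) * (x k - y k)) -
        ∑ j, A r j * (P x j - P y j - ∑ k, J j k * (x k - y k)) := by
      have a1 : ∑ k, ((if r = k then (1 : ℂ) else 0) - ∑ j, A r j * J j k) * (x k - y k) =
          (x r - y r) - ∑ j, A r j * ∑ k, J j k * (x k - y k) := by
        simp only [sub_mul _ _ (x _ - y _), sum_sub_distrib, ite_mul, one_mul, zero_mul,
          sum_ite_eq, mem_univ, if_true]
        congr 1
        simp only [sum_mul, mul_sum]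
        rw [sum_comm]
        refine sum_congr rfl fun j _ => sum_congr rfl fun k _ => ?_
        ring
      rw [a1]
      simp only [mul_sub, sum_sub_distrib, hT, Pi.sub_apply]
      ring
    rw [e1]
    have b1 := row_le (fun k => (if r = k then (1 : ℂ) else 0) - ∑ j, A r j * J j k) (x - y)
    have b2 : ‖∑ j, A r j * (P x j - P y j - ∑ k, J j k * (x k - y k))‖ ≤
        (∑ k, ∑ j, ‖A r j‖ * E j k) * ‖x - y‖ := by
      refine (norm_sum_le _ _).trans ?_
      rw [sum_comm, sum_mul]
      refine sum_le_sum fun j _ => ?_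
      rw [norm_mul, ← mul_sum, mul_assoc, sum_mul]
      refine mul_le_mul_of_nonneg_left ?_ (norm_nonneg _)
      refine (hP x y ((hmem x).1 hx) ((hmem y).1 hy) j).trans ?_
      refine sum_le_sum fun k _ => ?_
      exact mul_le_mul_of_nonneg_left (norm_le_pi_norm (x - y) k) (hE j k)
    refine (norm_sub_le _ _).trans ((add_le_add b1 b2).trans ?_)
    rw [← add_mul]
    exact mul_le_mul_of_nonneg_right (h2 r) (norm_nonneg _)
  have hc : c ∈ B := Metric.mem_closedBall_self hρ
  have hTc : ‖T c - c‖ ≤ ρ / 2 := by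
    refine (pi_norm_le_iff_of_nonneg (by positivity)).2 fun r => ?_
    have e1 : (T c - c) r = -∑ j, A r j * P c j := by
      simp only [hT, Pi.sub_apply]
      ring
    rw [e1, norm_neg]
    exact h4 r
  have hmaps : Set.MapsTo T B B := by
    intro x hx
    rw [hB, Metric.mem_closedBall, dist_eq_norm] at hx ⊢
    have e1 := hlip x (by rw [hB, Metric.mem_closedBall, dist_eq_norm]; exact hx) c hc
    calc ‖T x - c‖ = ‖(T x - T c) + (T c - c)‖ := by congr 1; abel
      _ ≤ ‖T x - T c‖ + ‖T c - c‖ := norm_add_le _ _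
      _ ≤ 1 / 2 * ρ + ρ / 2 := add_le_add (e1.trans (by linarith)) hTc
      _ = ρ := by ring
  have hcon : ContractingWith (1 / 2 : NNReal) (hmaps.restrict T B B) := by
    refine ⟨by rw [← NNReal.coe_lt_coe]; push_cast; norm_num, LipschitzWith.of_dist_le_mul ?_⟩
    intro x y
    rw [Subtype.dist_eq, Subtype.dist_eq, dist_eq_norm, dist_eq_norm]
    have := hlip x x.2 y y.2
    push_cast
    exact this
  obtain ⟨x, hx, hfix, -⟩ := hcon.exists_fixedPoint' (Metric.isClosed_closedBall.isComplete)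
    hmaps hc (edist_ne_top _ _)
  refine ⟨x, (hmem x).1 hx, ?_⟩
  have hA0 : A.mulVec (P x) = 0 := by
    funext r
    have e1 : T x r = x r := congrFun hfix r
    simp only [hT] at e1
    show ∑ j, A r j * P x j = 0
    linear_combination -e1
  have hAJ : (A * J).det ≠ 0 := by
    intro h0
    obtain ⟨u, hu, hu0⟩ := Matrix.exists_mulVec_eq_zero_iff.2 h0
    have e1 : ‖u‖ ≤ 1 / 2 * ‖u‖ := by
      refine (pi_norm_le_iff_of_nonneg (by positivity)).2 fun r => ?_
      have e2 : u r = ∑ k, ((if r = k then (1 : ℂ) else 0) - ∑ j, A r j * J j k) * u k := by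
        have e3 : ∑ k, (∑ j, A r j * J j k) * u k = 0 := by
          have := congrFun hu0 r
          exact this
        simp only [sub_mul, sum_sub_distrib, ite_mul, one_mul, zero_mul, sum_ite_eq, mem_univ,
          if_true]
        rw [e3, sub_zero]
      have e4 := row_le (fun k => (if r = k then (1 : ℂ) else 0) - ∑ j, A r j * J j k) u
      rw [← e2] at e4
      refine e4.trans (mul_le_mul_of_nonneg_right ?_ (norm_nonneg _))
      have e5 := h2 r
      have e6 : 0 ≤ ∑ k, ∑ j, ‖A r j‖ * E j k :=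
        sum_nonneg fun k _ => sum_nonneg fun j _ => mul_nonneg (norm_nonneg _) (hE j k)
      linarith
    have e7 : 0 < ‖u‖ := norm_pos_iff.2 hu
    linarith
  have hdet : A.det ≠ 0 := by
    intro h0
    apply hAJ
    rw [Matrix.det_mul, h0, zero_mul]
  by_contra hne
  exact hdet (Matrix.exists_mulVec_eq_zero_iff.1 ⟨P x, hne, hA0⟩)

end Pool.Agent.Helper66.CG.NKA
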